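import Pool.Agent.Helper12.CW.GN4
import Pool.Agent.Helper26.C75.XH
import Pool.Agent.Helper51.FR.PtR
import Pool.Agent.Helper91.BX.S
import Pool.Agent.Helper82.CW.SED

/-!
MP_c75db0, Plan W, row M7: the data of a cell (a piece of a box of the star frame) and the laws of
the tests. `κ`: type of a form (a function on the box), `γ`: data of one test.
-/

set_option autoImplicit false
noncomputable section
namespace Pool.Agent.Helper21.SW

open Matrix
open Pool.Agent.Helper90.C75 (Vt)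
open Pool.Agent.Helper90.KMT
open Pool.Agent.Helper90.KMO (UU UU_pos UUc_ne cz zv zv_p andB_t)
open Pool.Agent.Helper86.C75 (Z)
open Pool.Agent.Helper86.CX (Cx andB)
open Pool.Agent.Helper86.CT (N3 Alg Mo KM mk cst addM subM mulM conjM A3 A4)
open Pool.Agent.Helper17.K9 (V9)
open Pool.Agent.Helper62.TVM
open Pool.Agent.Helper12.NKT (CovD)
open Pool.Agent.Helper51.FR (LE LM PtE FrH FrM frC ltM)
open Pool.Agent.Helper26.XM (ajV gaV)
open Pool.Agent.Helper26.XH (FH fhM)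
open Pool.Agent.Helper91.BX (Bx Sb bxS qx3 upM upW upV frR tu)
open Pool.Agent.Helper82.TST (HK)
open Pool.Agent.Helper6.MONO (V3)
open Pool.Agent.Helper6.MONO.W2 (Mt NT NZ rfJ)

/-! ### the machines -/

/-- trees of depth 3 (the box) and 4 (with the parameter of a family) -/
abbrev T3 : Type := N3 (N3 (N3 Cx))
abbrev T4 : Type := N3 (N3 (N3 (N3 Cx)))
/-- their leaves -/
def lf3 : T3 → Vt 3 → ℂ := nlf (nlf (nlf lf0))
def lf4 : T4 → Vt 4 → ℂ := nlf lf3

theorem a3 : AOK 3 lf3 A3 := A3_ok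
theorem a4 : AOK 4 lf4 A4 := A4_ok

/-! ### the tests -/

/-- kernel side: the two tests (data, forms before and after, models of `M^` and `X^`), models of
the forms -/
structure TK (κ γ : Type) where
  t3 : κ → κ → γ → V9 T3 → V9 T3 → Bool
  t4 : κ → κ → γ → V9 T4 → V9 T4 → Bool
  km : κ → KM T3

/-- THE LAWS. `KV k t`: the form at the point `t` of the box -/
structure TKL {κ γ : Type} (KV : κ → (ℕ → ℝ) → Mt) (T : TK κ γ) : Prop where
  t3 : ∀ {k1 k2 : κ} {g : γ} {M X : V9 T3} {t : ℕ → ℝ} {Mr Xr : Mt}, T.t3 k1 k2 g M X = true →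
    PT 3 t → TV 3 lf3 t Mr M → TV 3 lf3 t Xr X → NT (KV k1 t) (KV k2 t) Xr Mr
  t4 : ∀ {k1 k2 : κ} {g : γ} {M X : V9 T4} {t : ℕ → ℝ} {Mr Xr : Mt}, T.t4 k1 k2 g M X = true →
    PT 4 t → TV 4 lf4 t Mr M → TV 4 lf4 t Xr X → NT (KV k1 t) (KV k2 t) Xr Mr
  km : ∀ {k : κ} {t : ℕ → ℝ}, PT 3 t → HK 3 lf3 t (KV k t) (T.km k)
  up : ∀ {k : κ} {t : ℕ → ℝ} {u : ℝ}, KV k (tu 3 t u) = KV k t

/-- multipliers of an inclusion -/
structure Mu where
  l : Nat
  m : Z

/-! ### constant gauges -/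

/-- nine real parameters of `S0`: entries `i a, b + i c, d + i e; -b + i c, i f, g + i h;
d - i e, g - i h, i k` -/
structure S9 where
  a : Z
  b : Z
  c : Z
  d : Z
  e : Z
  f : Z
  g : Z
  h : Z
  k : Z

def s9C (s : S9) : C9 :=
  ⟨⟨Z.p (nat_lit 0), s.a⟩, ⟨s.b, s.c⟩, ⟨s.d, s.e⟩,
    ⟨Z.opp s.b, s.c⟩, ⟨Z.p (nat_lit 0), s.f⟩, ⟨s.g, s.h⟩,
    ⟨s.d, Z.opp s.e⟩, ⟨s.g, Z.opp s.h⟩, ⟨Z.p (nat_lit 0), s.k⟩⟩

def z0 : Cx := ⟨Z.p (nat_lit 0), Z.p (nat_lit 0)⟩
def z9 : C9 := ⟨z0, z0, z0, z0, z0, z0, z0, z0, z0⟩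

/-- the real matrix of nine constants -/
def cmR (C : C9) : Mt := Matrix.of fun i j => cz (C.get i j) / UU

/-! ### the cell -/

/-- THE DATA OF A CELL: combinatorial part (shared by the cells of a class), base surface, box,
hints of the frame, families of the letters (index: code of the syllable), default form, forms,
gauge -/
structure Cel (κ : Type) where
  D : CovD Unit Unit Unit
  S : Sb
  B : Bx
  h : FrH T3
  le : List LE
  k0 : κ
  F : List κ
  s0 : S9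
  X : List C9

def dLE : LE := ⟨⟨(nat_lit 0), (nat_lit 0), (nat_lit 0), (nat_lit 0), (nat_lit 0), (nat_lit 0),
  (nat_lit 0), (nat_lit 0), (nat_lit 0)⟩, []⟩

section

variable {κ : Type}

/-- the family of the syllable with code `c` -/
def Cel.tb (C : Cel κ) (c : Nat) : LE := C.le.getD c dLE
/-- the models of the box -/
def Cel.x (C : Cel κ) : Pool.Agent.Helper51.FR.BxM T3 := frR (bxS A3 qx3 C.D.p C.S C.B)
/-- the models of the frame -/
def Cel.f (C : Cel κ) : FrM T3 := frC A3 C.x C.h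
/-- `v`, `vd`, `c`, `H` -/
def Cel.H (C : Cel κ) : FH T3 := fhM A3 C.f.v C.f.w
/-- the models of the syllable with code `c` -/
def Cel.L (C : Cel κ) (c : Nat) : LM T3 :=
  ltM A3 C.x C.f (Nat.beq (Nat.mod c (nat_lit 2)) (nat_lit 1)) (Nat.div c (nat_lit 2))
/-- the form `i` -/
def Cel.fo (C : Cel κ) (i : Nat) : κ := C.F.getD i C.k0
/-- constant of the class `k` of the gauge -/
def Cel.xk (C : Cel κ) (k : Nat) : C9 := C.X.getD k z9
/-- the gauge `S0 + X_i - adJ X_j` -/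
def Cel.g (C : Cel κ) (i j : Nat) : V9 T3 :=
  gaV A3 (cstV A3 (s9C C.s0) (nat_lit 0)) (cstV A3 (C.xk i) (nat_lit 0))
    (cstV A3 (C.xk j) (nat_lit 0))

end

/-- a form in the coordinates of the window -/
def cK (v : V3) (K : Mt) : Mt := (rfJ 1 v)ᴴ * K * rfJ 1 v

/-! ### lifts -/

def upH (F : FH T3) : FH T4 := ⟨upW F.v, upW F.vd, upM F.z, upV F.c, upV F.h⟩
def upL (L : LM T3) : LM T4 := ⟨upM L.E, upM L.P, upM L.w, upM L.wd, upW L.s, upW L.sd⟩

end Pool.Agent.Helper21.SW
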