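import Pool.Agent.Helper21.SW.M7T

/-!
MP_c75db0, Plan W, row M7: the models of a cell at a point; constant gauges.
-/

set_option autoImplicit false
noncomputable section
namespace Pool.Agent.Helper21.SW

open Matrix
open Pool.Agent.Helper90.C75 (Vt)
open Pool.Agent.Helper90.KMT
open Pool.Agent.Helper90.KMO (UU UU_pos UUc_ne cz zv zv_p andB_t)
open Pool.Agent.Helper86.C75 (Z)
open Pool.Agent.Helper86.CX (Cx andB)
open Pool.Agent.Helper86.CT (N3 Alg Mo KM mk cst addM subM mulM conjM A3 A4)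
open Pool.Agent.Helper17.K9 (V9)
open Pool.Agent.Helper62.TVM
open Pool.Agent.Helper12.NKT (CovD)
open Pool.Agent.Helper51.FR
open Pool.Agent.Helper26.XM (ajV gaV TV_ga adJ_apply)
open Pool.Agent.Helper26.XH (FH fhM HOK HOK_fh hL hR lhM rhM' TV_lh TV_rh)
open Pool.Agent.Helper91.BX (Bx Sb bxS qx3 upM upW upV frR tu Rg sr WB ParS BxT PcV PcG xv box_ptS
  CD3)
open Pool.Agent.Helper82.TST (HK)
open Pool.Agent.Helper6.MONO (V3 Kp xA xA_gt fB)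
open Pool.Agent.Helper6.MONO.W2

/-! ### kernel side -/

/-- the row `r ≥ 4` -/
def r4B (p A0 ra : Nat) : Bool :=
  orB (Nat.ble (nat_lit 4) p) (Nat.ble (Nat.succ (Nat.add (nat_lit 281474976710656) ra)) A0)
/-- THE BASE TEST OF A CELL -/
def ceB {κ : Type} (C : Cel κ) : Bool :=
  andB (Nat.ble (nat_lit 3) C.D.p) (andB (Nat.ble C.D.p (nat_lit 15))
    (andB (r4B C.D.p C.B.A0 C.B.ra) (andB (Bool.rec (motive := fun _ => Bool) true
      (Nat.ble (nat_lit 4) C.D.p) C.D.gb) (frOK A3 C.x C.h))))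

/-! ### real side -/

section

variable {κ : Type} {C : Cel κ} {q r : ℕ} {x : ℝ} {t : ℕ → ℝ}

/-- the polar vector and its derivative at a point -/
abbrev vX (C : Cel κ) (q r : ℕ) (x : ℝ) : V3 := vC C.D.p (cW C.D.p q r x) (Kp q ^ 2) (Kp r ^ 2)
abbrev wX (C : Cel κ) (q r : ℕ) (x : ℝ) : V3 := wC C.D.p (cW C.D.p q r x) (Kp q ^ 2) (Kp r ^ 2)

/-- EVERYTHING AT A POINT OF THE CELL -/
structure PtC (C : Cel κ) (q r : ℕ) (x : ℝ) (t : ℕ → ℝ) : Prop where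
  hp : 3 ≤ C.D.p
  hp15 : C.D.p ≤ 15
  hpq : C.D.p ≤ q
  hqr : q ≤ r
  hr4 : 4 ≤ r
  hxA : xA C.D.p q r ≤ x
  hx2 : x < 2
  hQ : C.D.gb = true → 0 ≤ fB C.D.p q r x
  hP : PT 3 t
  par : ParS C.D.p q r C.S C.B x t
  bx : BxOK 3 lf3 t C.D.p (cW C.D.p q r x) (Kp q ^ 2) (Kp r ^ 2) C.x
  fr : FrOK 3 lf3 t C.D.p (cW C.D.p q r x) (Kp q ^ 2) (Kp r ^ 2) C.f
  R2 : 0 < cW C.D.p q r x ^ 2 - cX C.D.p (cW C.D.p q r x) (Kp q ^ 2) (Kp r ^ 2) ^ 2 -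
    cY C.D.p (Kp q ^ 2) (Kp r ^ 2) ^ 2
  W2 : 2 < cW C.D.p q r x
  two : brJ 1 (vX C q r x) (vX C q r x) = 2
  H : HOK 3 lf3 t (vX C q r x) (wX C q r x) C.H
  L : ∀ g : Sy, LOK 3 lf3 t C.D.p (vX C q r x) (wX C q r x) g (C.L (sc g))

theorem sc_mod (g : Sy) : Nat.beq (Nat.mod (sc g) (nat_lit 2)) (nat_lit 1) = g.1 := by
  obtain ⟨a, k⟩ := g
  cases a
  · have : Nat.mod (sc (false, k)) 2 = 0 := by
      show (2 * k + 0) % 2 = 0
      omega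
    show Nat.beq (Nat.mod (sc (false, k)) 2) 1 = false
    rw [this]
    rfl
  · have : Nat.mod (sc (true, k)) 2 = 1 := by
      show (2 * k + 1) % 2 = 1
      omega
    show Nat.beq (Nat.mod (sc (true, k)) 2) 1 = true
    rw [this]
    rfl

theorem sc_div2 (g : Sy) : Nat.div (sc g) (nat_lit 2) = g.2 := by
  obtain ⟨a, k⟩ := g
  cases a
  · show (2 * k + 0) / 2 = k
    omega
  · show (2 * k + 1) / 2 = k
    omega

theorem Cel.L_sc (C : Cel κ) (g : Sy) : C.L (sc g) = ltM A3 C.x C.f g.1 g.2 := by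
  unfold Cel.L
  rw [sc_mod, sc_div2]

theorem q_four {q A0 A1 ra : ℕ} (hq : 3 ≤ q) (h : Rg (Kp q ^ 2) A0 A1 ra)
    (hb : 281474976710656 + ra < A0) : 4 ≤ q := by
  by_contra hc
  have e : q = 3 := by omega
  subst e
  obtain ⟨m, h1, h2, h3⟩ := h
  have hk : Kp 3 = 1 := by
    unfold Kp
    rw [Nat.cast_ofNat, Real.cos_pi_div_three]
    norm_num
  rw [hk, abs_le] at h3
  have hb' : (281474976710656 : ℝ) + ra < A0 := by exact_mod_cast hb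
  norm_num at h3
  linarith [h3.1]

/-- the base test -/
theorem ceB_t (h : ceB C = true) : 3 ≤ C.D.p ∧ C.D.p ≤ 15 ∧ r4B C.D.p C.B.A0 C.B.ra = true ∧
    (C.D.gb = true → 4 ≤ C.D.p) ∧ frOK A3 C.x C.h = true := by
  obtain ⟨h1, h⟩ := andB_t h
  obtain ⟨h2, h⟩ := andB_t h
  obtain ⟨h3, h⟩ := andB_t h
  obtain ⟨h4, h5⟩ := andB_t h
  refine ⟨Nat.le_of_ble_eq_true h1, Nat.le_of_ble_eq_true h2, h3, fun hg => ?_, h5⟩
  rw [hg] at h4
  exact Nat.le_of_ble_eq_true h4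

theorem r4_ok {p q r A0 A1 ra : ℕ} (hp : 3 ≤ p) (hpq : p ≤ q) (hqr : q ≤ r)
    (ha : Rg (Kp q ^ 2) A0 A1 ra) (h : r4B p A0 ra = true) : 4 ≤ r := by
  unfold r4B orB at h
  cases hb : Nat.ble (nat_lit 4) p with
  | true =>
    have : 4 ≤ p := Nat.le_of_ble_eq_true hb
    omega
  | false =>
    rw [hb] at h
    have h' : 281474976710656 + ra < A0 := Nat.le_of_ble_eq_true h
    have := q_four (hp.trans hpq) ha h'
    omega

/-- **THE MODELS AT A POINT** -/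
theorem ptC (hb : ceB C = true) (hpq : C.D.p ≤ q) (hqr : q ≤ r)
    (ha : Rg (Kp q ^ 2) C.B.A0 C.B.A1 C.B.ra) (hs : Rg (sr q r) C.B.S0 C.B.S1 C.B.rs)
    (hxA : xA C.D.p q r ≤ x) (hx2 : x < 2)
    (g0 : xv C.D.p q r (WB C.S C.D.p q r + C.B.W0 / 2 ^ 48) ≤ x)
    (g1 : x ≤ xv C.D.p q r (WB C.S C.D.p q r + C.B.W1 / 2 ^ 48))
    (hQ : C.D.gb = true → 0 ≤ fB C.D.p q r x) : ∃ t : ℕ → ℝ, PtC C q r x t := by
  obtain ⟨hp, hp15, h4, _, hf⟩ := ceB_t hb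
  have hq : 3 ≤ q := hp.trans hpq
  have hr : 3 ≤ r := hq.trans hqr
  have hr4 := r4_ok hp hpq hqr ha h4
  have hx1 : -2 < x := lt_of_lt_of_le (xA_gt hp hq hqr) hxA
  obtain ⟨t, hP, _, hpar, hbx⟩ := box_ptS (D := 3) (lf := lf3) (A := A3) (qd := qx3) (u := 0) hp
    hp15 hq hr ha hs hx1.le hx2.le g0 g1 le_rfl (by norm_num) a3 CD3 le_rfl zero_le_one
  obtain ⟨htt, _, two, _, _, _⟩ := ptF_k hp hpq hqr hr4 hxA hx2
  have hB : BxOK 3 lf3 t C.D.p (cW C.D.p q r x) (Kp q ^ 2) (Kp r ^ 2) C.x :=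
    Pool.Agent.Helper91.BX.BxT.fr hbx
  obtain ⟨hF, hR2, hW2⟩ := frame_x a3 hP hp hq hr hx1 hx2 htt.le hB hf
  refine ⟨t, hp, hp15, hpq, hqr, hr4, hxA, hx2, hQ, hP, hpar, hB, hF, hR2, hW2, two,
    HOK_fh a3 hP hF.v hF.w, fun g => ?_⟩
  rw [C.L_sc g]
  exact LOK_lt a3 hP hB hF hR2 hW2 g

/-! ### constant gauges -/

theorem TV_cm {D : ℕ} {α : Type} {lf : α → Vt D → ℂ} {A : Alg α} (hA : AOK D lf A)
    (hP : PT D t) (c : C9) : TV D lf t (cmR c) (cstV A c (nat_lit 0)) := by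
  refine TV_cst hA hP fun i j => ?_
  have e : (UU : ℂ) * cmR c i j = cz (c.get i j) := by
    show (UU : ℂ) * (cz (c.get i j) / UU) = _
    rw [mul_div_cancel₀ _ UUc_ne]
  rw [e, sub_self, norm_zero]
  exact Nat.cast_nonneg _

/-- the gauge of two classes -/
def gR (C : Cel κ) (i j : ℕ) : Mt := cmR (s9C C.s0) + cmR (C.xk i) - adJ (cmR (C.xk j))

theorem TV_g (hP : PT 3 t) (C : Cel κ) (i j : ℕ) : TV 3 lf3 t (gR C i j) (C.g i j) :=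
  TV_ga a3 hP (TV_cm a3 hP _) (TV_cm a3 hP _) (TV_cm a3 hP _)

theorem zv_opp (z : Z) : zv (Z.opp z) = -zv z := by
  cases z with
  | p n => simp [Z.opp, zv]
  | m n => simp [Z.opp, zv]

theorem star_cz (a b : Z) : star (cz ⟨a, b⟩) = cz ⟨a, Z.opp b⟩ := by
  apply Complex.ext
  · show ((zv a : ℤ) : ℝ) = ((zv a : ℤ) : ℝ)
    rfl
  · show -((zv b : ℤ) : ℝ) = ((zv (Z.opp b) : ℤ) : ℝ)
    rw [zv_opp]
    push_cast
    ring

theorem neg_cz (a b : Z) : -cz ⟨a, b⟩ = cz ⟨Z.opp a, Z.opp b⟩ := by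
  apply Complex.ext
  · show -((zv a : ℤ) : ℝ) = ((zv (Z.opp a) : ℤ) : ℝ)
    rw [zv_opp]
    push_cast
    ring
  · show -((zv b : ℤ) : ℝ) = ((zv (Z.opp b) : ℤ) : ℝ)
    rw [zv_opp]
    push_cast
    ring

theorem opp_opp (z : Z) : Z.opp (Z.opp z) = z := by cases z <;> rfl
theorem cz_opp0 (b : Z) : cz ⟨Z.opp (Z.p (nat_lit 0)), b⟩ = cz ⟨Z.p (nat_lit 0), b⟩ := by
  apply Complex.ext
  · show ((zv (Z.opp (Z.p (nat_lit 0))) : ℤ) : ℝ) = ((zv (Z.p (nat_lit 0)) : ℤ) : ℝ)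
    rw [zv_opp, zv_p]
    norm_num
  · rfl

/-- `adJ S0 = - S0` -/
theorem adJ_s9 (s : S9) : adJ (cmR (s9C s)) = -cmR (s9C s) := by
  have hU : star ((UU : ℝ) : ℂ) = (UU : ℂ) := Complex.conj_ofReal UU
  have key : ∀ a b : Z, star (cz ⟨a, b⟩ / (UU : ℂ)) = cz ⟨a, Z.opp b⟩ / UU := by
    intro a b
    rw [star_div₀, star_cz, hU]
  have kn : ∀ a b : Z, -(cz ⟨a, b⟩ / (UU : ℂ)) = cz ⟨Z.opp a, Z.opp b⟩ / UU := by
    intro a b
    rw [← neg_div, neg_cz]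
  ext i j
  rw [adJ_apply, Matrix.neg_apply]
  fin_cases i <;> fin_cases j <;>
    simp only [cmR, s9C, C9.get, Matrix.of_apply, Fin.zero_eta, Fin.mk_one, Fin.reduceFinMk,
      Matrix.cons_val_zero, Matrix.cons_val_one, Matrix.cons_val, Matrix.cons_val', key, kn,
      one_mul, mul_one, neg_mul, mul_neg, opp_opp, cz_opp0]

end

end Pool.Agent.Helper21.SW
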