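import Pool.Agent.Helper21.SW.M7A

/-!
MP_c75db0, Plan W, row M7: the lists of items of a cell and the record `PtI`.
-/

set_option autoImplicit false
noncomputable section
namespace Pool.Agent.Helper21.SW

open Matrix
open Pool.Agent.Helper90.C75 (Vt)
open Pool.Agent.Helper90.KMT
open Pool.Agent.Helper90.KMO (UU UU_pos UUc_ne cz zv zv_p andB_t)
open Pool.Agent.Helper86.C75 (Z)
open Pool.Agent.Helper86.CX (Cx andB)
open Pool.Agent.Helper86.CT (N3 Alg Mo KM mk cst addM subM mulM conjM A3 A4)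
open Pool.Agent.Helper17.K9 (V9)
open Pool.Agent.Helper62.TVM
open Pool.Agent.Helper12.NKT (CovD Fm Le Lt Lt1 siT dfF)
open Pool.Agent.Helper51.FR
open Pool.Agent.Helper26.XH (FH fhM HOK hL hR lhM rhM' TV_lh TV_rh)
open Pool.Agent.Helper91.BX (Bx Sb tu)
open Pool.Agent.Helper6.MONO (V3 Kp xA fB)
open Pool.Agent.Helper6.MONO.W2
open Pool.Agent.Helper6.MONO.W2.TY (leF leG fmC PtI)

/-! ### kernel side: lists -/

/-- apply `f` to the value of `n` -/
def stN {β : Type} (f : Nat → β) (n : Nat) : β :=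
  Nat.rec (motive := fun _ => β) (f (nat_lit 0)) (fun m _ => f (Nat.succ m)) n

/-- all pairs of two aligned lists -/
def al2 {a b : Type} (f : a → b → Bool) (l : List a) : List b → Bool :=
  List.rec (motive := fun _ => List b → Bool) (fun _ => true)
    (fun x _ ih h => List.rec (motive := fun _ => Bool) false (fun y h' _ => andB (f x y) (ih h')) h) l

/-- kernel side of the items: `k` the test of an item, `i` the test of an invariance item;
arguments: cell, code of the syllable, part, forms, models of `L^`, `R^`, data -/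
structure IT (κ γ : Type) where
  k : Cel κ → Nat → Nat → κ → κ → V9 T3 → V9 T3 → γ → Bool
  i : Cel κ → Nat → Nat → κ → κ → Mu → Bool

section

variable {κ γ : Type}

/-- an item over the syllable `c`, part `P`, classes `gl` (inverse type), `gr` (type) -/
def itE (I : IT κ γ) (C : Cel κ) (c P gl gr i j : Nat) (h : γ) : Bool :=
  stN (fun ci => stN (fun cj => I.k C c P (C.fo i) (C.fo j) (lhM A3 C.H (C.g ci gl))
    (rhM' A3 C.H (C.g gr cj)) h) (fmC C.D j)) (fmC C.D i)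
def itP (I : IT κ γ) (C : Cel κ) (c P gl gr : Nat) (e : Nat × Nat × Unit) (h : γ) : Bool :=
  Prod.rec (motive := fun _ => Bool) (fun i x => Prod.rec (motive := fun _ => Bool)
    (fun j _ => itE I C c P gl gr i j h) x) e
def itQ (I : IT κ γ) (C : Cel κ) (c gl gr : Nat) (Q : Nat × List (Nat × Nat × Unit))
    (H : List γ) : Bool :=
  Prod.rec (motive := fun _ => Bool) (fun P l => al2 (itP I C c P gl gr) l H) Q
def itT (I : IT κ γ) (C : Cel κ) (l : List (Nat × List (Nat × Nat × Unit))) (H : List (List γ))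
    (c gl gr : Nat) : Bool := al2 (itQ I C c gl gr) l H
/-- THE ITEMS OVER A TYPE -/
def itL (I : IT κ γ) (C : Cel κ) (L : Lt Unit) (H : List (List γ)) : Bool :=
  stN (fun c => stN (fun gl => stN (fun gr => itT I C L.ps H c gl gr) (leG C.D L.g))
    (leG C.D (siT C.D.p L.g))) (Nat.mod L.g (nat_lit 32))

def i1E (I : IT κ γ) (C : Cel κ) (c P f i : Nat) (h : Mu) : Bool :=
  I.i C c P (C.fo i) (C.fo f) h
def i1P (I : IT κ γ) (C : Cel κ) (c P f : Nat) (e : Nat × Unit) (h : Mu) : Bool :=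
  Prod.rec (motive := fun _ => Bool) (fun i _ => i1E I C c P f i h) e
def i1Q (I : IT κ γ) (C : Cel κ) (c f : Nat) (Q : Nat × List (Nat × Unit)) (H : List Mu) : Bool :=
  Prod.rec (motive := fun _ => Bool) (fun P l => al2 (i1P I C c P f) l H) Q
def i1T (I : IT κ γ) (C : Cel κ) (l : List (Nat × List (Nat × Unit))) (H : List (List Mu))
    (c f : Nat) : Bool := al2 (i1Q I C c f) l H
/-- THE INVARIANCE ITEMS OVER A TYPE -/
def i1L (I : IT κ γ) (C : Cel κ) (L : Lt1 Unit) (H : List (List Mu)) : Bool :=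
  stN (fun c => stN (fun f => i1T I C L.ps H c f) (leF C.D L.g)) (Nat.mod L.g (nat_lit 32))

/-! ### real side -/

theorem stN_eq {β : Type} (f : Nat → β) (n : Nat) : stN f n = f n := by
  cases n <;> rfl

theorem al2_t {a b : Type} {f : a → b → Bool} : ∀ {l : List a} {h : List b}, al2 f l h = true →
    ∀ x ∈ l, ∃ y, f x y = true
  | [], _, _, x, hx => absurd hx (by simp)
  | x :: l, [], hh, _, _ => by
    exact absurd (show false = true from hh) (by simp)
  | x :: l, y :: h, hh, z, hz => by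
    obtain ⟨h1, h2⟩ := andB_t (show andB (f x y) (al2 f l h) = true from hh)
    rcases List.mem_cons.1 hz with rfl | hz
    · exact ⟨y, h1⟩
    · exact al2_t h2 z hz

/-- THE LAWS OF THE ITEM TESTS, `R`: the parameters of the families at the point -/
structure ITL (KV : κ → (ℕ → ℝ) → Mt) (I : IT κ γ) (C : Cel κ) (q r : ℕ) (x : ℝ) (t : ℕ → ℝ)
    (R : RPar) : Prop where
  k : ∀ {c P : ℕ} {k1 k2 : κ} {Sl Sr : V9 T3} {g : γ} {S S' : Mt},
    I.k C c P k1 k2 Sl Sr g = true → TV 3 lf3 t (hL (vX C q r x) (wX C q r x) S) Sl →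
    TV 3 lf3 t (hR (vX C q r x) (wX C q r x) S') Sr →
    sat R (phi C.D.p) (vX C q r x) (wX C q r x) (cs c) (Pd P) (cK (vX C q r x) (KV k1 t))
      (cK (vX C q r x) (KV k2 t)) S S'
  i : ∀ {c P : ℕ} {k1 kt : κ} {m : Mu}, I.i C c P k1 kt m = true →
    sati R (phi C.D.p) (vX C q r x) (cs c) (Pd P) (cK (vX C q r x) (KV k1 t))
      (cK (vX C q r x) (KV kt t))

variable {KV : κ → (ℕ → ℝ) → Mt} {I : IT κ γ} {C : Cel κ} {q r : ℕ} {x : ℝ} {t : ℕ → ℝ} {R : RPar}

/-- the forms at the point -/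
def KC (KV : κ → (ℕ → ℝ) → Mt) (C : Cel κ) (q r : ℕ) (x : ℝ) (t : ℕ → ℝ) (i : ℕ) : Mt :=
  cK (vX C q r x) (KV (C.fo i) t)

/-- ITEMS -/
theorem itL_ok (hC : PtC C q r x t) (hI : ITL KV I C q r x t R) {L : Lt Unit}
    {H : List (List γ)} (h : itL I C L H = true) : ∀ Q ∈ L.ps, ∀ e ∈ Q.2,
    sat R (phi C.D.p) (vX C q r x) (wX C q r x) (cs (L.g % 32)) (Pd Q.1)
      (KC KV C q r x t e.1) (KC KV C q r x t e.2.1)
      (cmR (s9C C.s0) + cmR (C.xk (fmC C.D e.1)) - adJ (cmR (C.xk (leG C.D (siT C.D.p L.g)))))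
      (cmR (s9C C.s0) + cmR (C.xk (leG C.D L.g)) - adJ (cmR (C.xk (fmC C.D e.2.1)))) := by
  intro Q hQ e he
  unfold itL at h
  rw [stN_eq, stN_eq, stN_eq] at h
  obtain ⟨HQ, h1⟩ := al2_t h Q hQ
  obtain ⟨P, l⟩ := Q
  obtain ⟨g, h2⟩ := al2_t (show al2 (itP I C (Nat.mod L.g (nat_lit 32)) P
    (leG C.D (siT C.D.p L.g)) (leG C.D L.g)) l HQ = true from h1) e he
  obtain ⟨i, j, u⟩ := e
  have h3 : itE I C (Nat.mod L.g (nat_lit 32)) P (leG C.D (siT C.D.p L.g)) (leG C.D L.g) i j g =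
    true := h2
  unfold itE at h3
  rw [stN_eq, stN_eq] at h3
  exact hI.k h3 (TV_lh a3 hC.hP hC.H (TV_g hC.hP C _ _)) (TV_rh a3 hC.hP hC.H (TV_g hC.hP C _ _))

/-- INVARIANCE -/
theorem i1L_ok (hI : ITL KV I C q r x t R) {L : Lt1 Unit}
    {H : List (List Mu)} (h : i1L I C L H = true) : ∀ Q ∈ L.ps, ∀ e ∈ Q.2,
    sati R (phi C.D.p) (vX C q r x) (cs (L.g % 32)) (Pd Q.1) (KC KV C q r x t e.1)
      (KC KV C q r x t (leF C.D L.g)) := by
  intro Q hQ e he
  unfold i1L at h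
  rw [stN_eq, stN_eq] at h
  obtain ⟨HQ, h1⟩ := al2_t h Q hQ
  obtain ⟨P, l⟩ := Q
  obtain ⟨g, h2⟩ := al2_t (show al2 (i1P I C (Nat.mod L.g (nat_lit 32)) P
    (leF C.D L.g)) l HQ = true from h1) e he
  obtain ⟨i, u⟩ := e
  exact hI.i (show I.i C (Nat.mod L.g (nat_lit 32)) P (C.fo i) (C.fo (leF C.D L.g)) g = true
    from h2)

/-- **ALL ITEMS AT A POINT** -/
theorem ptI_of (hC : PtC C q r x t) (hI : ITL KV I C q r x t R)
    (h1 : ∀ L ∈ C.D.it, ∃ H, itL I C L H = true)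
    (h2 : ∀ L ∈ C.D.i1, ∃ H, i1L I C L H = true)
    (h3 : ∀ i, ∀ e ∈ (C.D.fm.getD i dfF).inc, NZ (KC KV C q r x t e.1) ⊆
      NZ (KC KV C q r x t i)) :
    PtI C.D (vX C q r x) (wX C q r x) R (KC KV C q r x t) (cmR (s9C C.s0))
      (fun k => cmR (C.xk k)) where
  hS0 := adJ_s9 C.s0
  it := fun L hL => by
    obtain ⟨H, h⟩ := h1 L hL
    exact itL_ok hC hI h
  i1 := fun L hL => by
    obtain ⟨H, h⟩ := h2 L hL
    exact i1L_ok hI h
  inc := h3

end

end Pool.Agent.Helper21.SW
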