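import Pool.Agent.Helper12.CW.CT0
import Pool.Agent.Helper62.C75.NBX
import Pool.Agent.Helper51.FR.PtK
import Pool.Agent.Helper51.FR.M7S

/-!
MP_c75db0, Plan W, row M7: THE CELL. From the tests of a cell to everything at its points and to a
piece of the window.
-/

set_option autoImplicit false
noncomputable section
namespace Pool.Agent.Helper21.SW

open Matrix
open Pool.Agent.Helper90.C75 (Vt)
open Pool.Agent.Helper90.KMT
open Pool.Agent.Helper90.KMO (UU UU_pos UUc_ne cz zv zv_p andB_t)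
open Pool.Agent.Helper86.C75 (Z)
open Pool.Agent.Helper86.CX (Cx andB)
open Pool.Agent.Helper86.CT (N3 Alg Mo KM mk cst addM subM mulM conjM A3 A4)
open Pool.Agent.Helper17.K9 (V9)
open Pool.Agent.Helper62.TVM
open Pool.Agent.Helper12.NKT (CovD Fm Le Lt Lt1 siT dfF allC nPc mxC ck)
open Pool.Agent.Helper51.FR
open Pool.Agent.Helper26.XH (FH fhM HOK HOK_fh hL hR lhM rhM' TV_lh TV_rh)
open Pool.Agent.Helper91.BX (Bx Sb bxS qx3 upM upW upV frR tu Rg sr WB ParS BxT PcV PcG xv bxS_ok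
  CD3)
open Pool.Agent.Helper62.NBX (gbB itGI itl_G)
open Pool.Agent.Helper62.NBD (GB)
open Pool.Agent.Helper82.TST (HK uv)
open Pool.Agent.Helper6.MONO (V3 Kp xA xA_gt fB)
open Pool.Agent.Helper6.MONO.W2
open Pool.Agent.Helper6.MONO.W2.TY (leF leG fmC PtI PtS PtK PtA a0g pcG_of sc r4T)

/-! ### kernel side -/

/-- THE BASE TEST OF A CELL -/
def ceK {κ : Type} (C : Cel κ) : Bool :=
  andB (Nat.ble (nat_lit 3) C.D.p) (andB (Nat.ble C.D.p (nat_lit 15)) (frOK A3 C.x C.h))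
/-- THE TEST OF THE FAMILIES -/
def leA {κ : Type} (C : Cel κ) : Bool :=
  allC (leK A3 (fun c => (C.L c).w) C.tb (nPc C.D.le) (mxC C.D.mx)) (2 * C.D.p - 1)
/-- THE TEST OF START AND END -/
def seA {κ γ : Type} (T : TK κ γ) (C : Cel κ) (E : SE) : Bool :=
  cond C.D.gb (seB T C E (nat_lit 8) (nat_lit 9)) (seB T C E (nat_lit 4) (nat_lit 5))
/-- the data of the runs of a rotation, if there are any -/
def gbA {κ : Type} (C : Cel κ) (d : GB T3) : Bool := cond C.D.gb (gbB C d) true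

section

variable {κ γ : Type}

/-- THE ITEMS OVER THE TYPE `g`, a list of parts -/
def itS (I : IT κ γ) (C : Cel κ) (g : Nat) (l : List (Nat × List (Nat × Nat × Unit)))
    (H : List (List γ)) : Bool :=
  stN (fun c => stN (fun gl => stN (fun gr => itT I C l H c gl gr) (leG C.D g))
    (leG C.D (siT C.D.p g))) (Nat.mod g (nat_lit 32))
/-- THE INVARIANCE ITEMS OVER THE TYPE `g`, a list of parts -/
def i1S (I : IT κ γ) (C : Cel κ) (g : Nat) (l : List (Nat × List (Nat × Unit)))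
    (H : List (List Mu)) : Bool :=
  stN (fun c => stN (fun f => i1T I C l H c f) (leF C.D g)) (Nat.mod g (nat_lit 32))

/-- the parts `l` of the type `g` are tested -/
def ItsK (I : IT κ γ) (C : Cel κ) (g : Nat) (l : List (Nat × List (Nat × Nat × Unit))) : Prop :=
  ∀ Q ∈ l, ∃ H, itQ I C (g % 32) (leG C.D (siT C.D.p g)) (leG C.D g) Q H = true
def IvsK (I : IT κ γ) (C : Cel κ) (g : Nat) (l : List (Nat × List (Nat × Unit))) : Prop :=
  ∀ Q ∈ l, ∃ H, i1Q I C (g % 32) (leF C.D g) Q H = true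

theorem itS_ok {I : IT κ γ} {C : Cel κ} {g : Nat} {l : List (Nat × List (Nat × Nat × Unit))}
    {H : List (List γ)} (h : itS I C g l H = true) : ItsK I C g l := by
  unfold itS at h
  rw [stN_eq, stN_eq, stN_eq] at h
  exact fun Q hQ => al2_t h Q hQ
theorem i1S_ok {I : IT κ γ} {C : Cel κ} {g : Nat} {l : List (Nat × List (Nat × Unit))}
    {H : List (List Mu)} (h : i1S I C g l H = true) : IvsK I C g l := by
  unfold i1S at h
  rw [stN_eq, stN_eq] at h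
  exact fun Q hQ => al2_t h Q hQ

theorem ItsK.nil {I : IT κ γ} {C : Cel κ} {g : Nat} : ItsK I C g [] :=
  fun _ hQ => absurd hQ (by simp)
theorem IvsK.nil {I : IT κ γ} {C : Cel κ} {g : Nat} : IvsK I C g [] :=
  fun _ hQ => absurd hQ (by simp)
theorem ItsK.app {I : IT κ γ} {C : Cel κ} {g : Nat}
    {l l' : List (Nat × List (Nat × Nat × Unit))} (h : ItsK I C g l) (h' : ItsK I C g l') :
    ItsK I C g (l ++ l') := fun Q hQ => (List.mem_append.1 hQ).elim (h Q) (h' Q)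
theorem IvsK.app {I : IT κ γ} {C : Cel κ} {g : Nat}
    {l l' : List (Nat × List (Nat × Unit))} (h : IvsK I C g l) (h' : IvsK I C g l') :
    IvsK I C g (l ++ l') := fun Q hQ => (List.mem_append.1 hQ).elim (h Q) (h' Q)

/-- all types of a list -/
def ItsA (I : IT κ γ) (C : Cel κ) (l : List (Lt Unit)) : Prop := ∀ L ∈ l, ItsK I C L.g L.ps
def IvsA (I : IT κ γ) (C : Cel κ) (l : List (Lt1 Unit)) : Prop := ∀ L ∈ l, IvsK I C L.g L.ps

theorem ItsA.nil {I : IT κ γ} {C : Cel κ} : ItsA I C [] := fun _ hL => absurd hL (by simp)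
theorem IvsA.nil {I : IT κ γ} {C : Cel κ} : IvsA I C [] := fun _ hL => absurd hL (by simp)
theorem ItsA.cons {I : IT κ γ} {C : Cel κ} {L : Lt Unit} {l : List (Lt Unit)}
    (h : ItsK I C L.g L.ps) (h' : ItsA I C l) : ItsA I C (L :: l) := fun M hM =>
  (List.mem_cons.1 hM).elim (fun e => e ▸ h) (h' M)
theorem IvsA.cons {I : IT κ γ} {C : Cel κ} {L : Lt1 Unit} {l : List (Lt1 Unit)}
    (h : IvsK I C L.g L.ps) (h' : IvsA I C l) : IvsA I C (L :: l) := fun M hM =>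
  (List.mem_cons.1 hM).elim (fun e => e ▸ h) (h' M)

/-! ### at a point -/

variable {KV : κ → (ℕ → ℝ) → Mt} {T : TK κ γ} {C : Cel κ} {q r : ℕ} {x : ℝ} {t : ℕ → ℝ}

/-- **THE MODELS AT A POINT WITH GIVEN PARAMETERS** -/
theorem ptC_of (hb : ceK C = true) (hpq : C.D.p ≤ q) (hqr : q ≤ r) (hr4 : 4 ≤ r)
    (hxA : xA C.D.p q r ≤ x) (hx2 : x < 2) (hQ : C.D.gb = true → 0 ≤ fB C.D.p q r x)
    (hP : PT 3 t) (hpar : ParS C.D.p q r C.S C.B x t) : PtC C q r x t := by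
  obtain ⟨h1, h⟩ := andB_t hb
  obtain ⟨h2, hf⟩ := andB_t h
  have hp : 3 ≤ C.D.p := Nat.le_of_ble_eq_true h1
  have hp15 : C.D.p ≤ 15 := Nat.le_of_ble_eq_true h2
  have hq : 3 ≤ q := hp.trans hpq
  have hr : 3 ≤ r := hq.trans hqr
  have hx1 : -2 < x := lt_of_lt_of_le (xA_gt hp hq hqr) hxA
  have hbx : BxT 3 lf3 t C.D.p q r x (bxS A3 qx3 C.D.p C.S C.B) :=
    bxS_ok a3 hP CD3 le_rfl hp hp15 hq hpar
  obtain ⟨htt, _, two, _, _, _⟩ := ptF_k hp hpq hqr hr4 hxA hx2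
  have hB : BxOK 3 lf3 t C.D.p (cW C.D.p q r x) (Kp q ^ 2) (Kp r ^ 2) C.x :=
    Pool.Agent.Helper91.BX.BxT.fr hbx
  obtain ⟨hF, hR2, hW2⟩ := frame_x a3 hP hp hq hr hx1 hx2 htt.le hB hf
  refine ⟨hp, hp15, hpq, hqr, hr4, hxA, hx2, hQ, hP, hpar, hB, hF, hR2, hW2, two,
    HOK_fh a3 hP hF.v hF.w, fun g => ?_⟩
  rw [C.L_sc g]
  exact LOK_lt a3 hP hB hF hR2 hW2 g

theorem its_sat {I : IT κ γ} {R : RPar} (hC : PtC C q r x t) (hI : ITL KV I C q r x t R)
    {L : Lt Unit} (h : ItsK I C L.g L.ps) : ∀ Q ∈ L.ps, ∀ e ∈ Q.2,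
    sat R (phi C.D.p) (vX C q r x) (wX C q r x) (cs (L.g % 32)) (Pd Q.1)
      (KC KV C q r x t e.1) (KC KV C q r x t e.2.1)
      (cmR (s9C C.s0) + cmR (C.xk (fmC C.D e.1)) - adJ (cmR (C.xk (leG C.D (siT C.D.p L.g)))))
      (cmR (s9C C.s0) + cmR (C.xk (leG C.D L.g)) - adJ (cmR (C.xk (fmC C.D e.2.1)))) := by
  intro Q hQ e he
  obtain ⟨HQ, h1⟩ := h Q hQ
  obtain ⟨P, l⟩ := Q
  obtain ⟨g, h2⟩ := al2_t (show al2 (itP I C (L.g % 32) P
    (leG C.D (siT C.D.p L.g)) (leG C.D L.g)) l HQ = true from h1) e he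
  obtain ⟨i, j, u⟩ := e
  have h3 : itE I C (L.g % 32) P (leG C.D (siT C.D.p L.g)) (leG C.D L.g) i j g = true := h2
  unfold itE at h3
  rw [stN_eq, stN_eq] at h3
  exact hI.k h3 (TV_lh a3 hC.hP hC.H (TV_g hC.hP C _ _)) (TV_rh a3 hC.hP hC.H (TV_g hC.hP C _ _))

theorem ivs_sati {I : IT κ γ} {R : RPar} (hI : ITL KV I C q r x t R)
    {L : Lt1 Unit} (h : IvsK I C L.g L.ps) : ∀ Q ∈ L.ps, ∀ e ∈ Q.2,
    sati R (phi C.D.p) (vX C q r x) (cs (L.g % 32)) (Pd Q.1) (KC KV C q r x t e.1)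
      (KC KV C q r x t (leF C.D L.g)) := by
  intro Q hQ e he
  obtain ⟨HQ, h1⟩ := h Q hQ
  obtain ⟨P, l⟩ := Q
  obtain ⟨g, h2⟩ := al2_t (show al2 (i1P I C (L.g % 32) P (leF C.D L.g)) l HQ = true from h1)
    e he
  obtain ⟨i, u⟩ := e
  exact hI.i (show I.i C (L.g % 32) P (C.fo i) (C.fo (leF C.D L.g)) g = true from h2)

/-- THE TESTS OF A CELL -/
structure CelK (T : TK κ γ) (C : Cel κ) (d : GB T3) (E : SE) (ms : List (List Mu)) : Prop where
  ck : ck C.D = true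
  nx : C.D.nx = []
  nq : ∀ c : ℕ, Pool.Agent.Helper12.NKT.nQe C.D.le c = 0
  ce : ceK C = true
  gb : gbA C d = true
  le : leA C = true
  se : seA T C E = true
  ic : incB T C ms = true
  it : ItsA (itGI T d) C C.D.it
  i1 : IvsA (itGI T d) C C.D.i1

variable {d : GB T3} {E : SE} {ms : List (List Mu)}

theorem CelK.gb' (h : CelK T C d E ms) (hg : C.D.gb = true) : gbB C d = true := by
  have := h.gb
  unfold gbA at this
  rw [hg] at this
  exact this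

theorem CelK.p7 (h : CelK T C d E ms) (hg : C.D.gb = true) : 7 ≤ C.D.p :=
  Nat.le_of_ble_eq_true (andB_t (h.gb' hg)).1

theorem CelK.ind (h : CelK T C d E ms) : LinearIndependent ℂ E.U := by
  have h1 := h.se
  unfold seA at h1
  rcases hg : C.D.gb with _ | _
  · rw [hg] at h1
    exact seB_ind h1
  · rw [hg] at h1
    exact seB_ind h1

/-- **EVERYTHING AT A POINT** -/
theorem CelK.pt (hT : TKL KV T) (h : CelK T C d E ms) (hpq : C.D.p ≤ q) (hqr : q ≤ r)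
    (hr4 : 4 ≤ r) (hxA : xA C.D.p q r ≤ x) (hx2 : x < 2)
    (hQ : C.D.gb = true → 0 ≤ fB C.D.p q r x) (hP : PT 3 t)
    (hpar : ParS C.D.p q r C.S C.B x t) :
    PtA C.D (cmR (s9C C.s0)) (fun k => cmR (C.xk k)) E.U (uv E.y) cbd q r x := by
  have hC := ptC_of h.ce hpq hqr hr4 hxA hx2 hQ hP hpar
  obtain ⟨bc, hbc, hI⟩ := itl_G (d := d) hT hC h.gb'
  refine ⟨RTK C.tb (nW (phi C.D.p) (vX C q r x)) bc, KC KV C q r x t, ?_, ?_, ?_⟩
  · exact PtK_x a3 hP hC.hp hpq hqr hr4 hxA hx2 (W := fun c => (C.L c).w)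
      (fun g _ _ => (hC.L g).w) h.le h.nx h.nq hbc
  · exact {
      hS0 := adJ_s9 C.s0
      it := fun L hL => its_sat hC hI (h.it L hL)
      i1 := fun L hL => ivs_sati hI (h.i1 L hL)
      inc := incB_ok hT hP hC.two h.ic }
  · have h1 := h.se
    unfold seA at h1
    rcases hg : C.D.gb with _ | _
    · rw [hg] at h1
      refine seB_ok (E := E) (a0 := a0g false) hT hP hC.two hC.fr.v (ca := 4) (ce := 5) rfl ?_ h1
      have hp := hC.hp
      have hn : ¬ ((a0g false).2 % 2 = 1 ∨ (a0g false).2 = C.D.p) := by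
        show ¬ (2 % 2 = 1 ∨ 2 = C.D.p)
        omega
      have e : syi C.D.p (a0g false) = (true, 2) := by
        unfold syi
        rw [if_neg hn]
        rfl
      rw [e]
      rfl
    · rw [hg] at h1
      refine seB_ok (E := E) (a0 := a0g true) hT hP hC.two hC.fr.v (ca := 8) (ce := 9) rfl ?_ h1
      have hp := h.p7 hg
      have hn : ¬ ((a0g true).2 % 2 = 1 ∨ (a0g true).2 = C.D.p) := by
        show ¬ (4 % 2 = 1 ∨ 4 = C.D.p)
        omega
      have e : syi C.D.p (a0g true) = (true, 4) := by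
        unfold syi
        rw [if_neg hn]
        rfl
      rw [e]
      rfl

/-- **A PIECE OF THE WINDOW FROM THE TESTS OF A CELL** -/
theorem CelK.pc (hT : TKL KV T) (h : CelK T C d E ms)
    (h4 : r4T C.D.p C.B.A0 C.B.ra C.B.S0 C.B.rs = true) {Q : ℕ → ℕ → ℝ → Prop} {m : ℝ}
    (hQ : ∀ q r x, Q q r x → C.D.gb = true → 0 ≤ fB C.D.p q r x) :
    PcG Q C.D.p m C.B.A0 C.B.A1 C.B.ra C.B.S0 C.B.S1 C.B.rs C.S C.B.W0 C.S C.B.W1 := by
  have hp : 3 ≤ C.D.p := Nat.le_of_ble_eq_true (andB_t h.ce).1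
  exact pcG_of hp (fun hg => by have := h.p7 hg; omega) h.ck h4 (cmR (s9C C.s0))
    (fun k => cmR (C.xk k)) E.U h.ind (uv E.y) cbd
    (fun q r x t hpq hqr hr4 _ hx2 _ hxA hq hP hpar =>
      h.pt hT hpq hqr hr4 hxA hx2 (hQ q r x hq) hP hpar)

end

end Pool.Agent.Helper21.SW
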